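import Pool.Agent.MP_d1f1f3_co.H33.One

set_option autoImplicit false

namespace Pool.Agent.Results.MP_d1f1f3_co.AllFour

/-- Every finite connected graph other than the single edge and the cycle of length five has an
edge colouring with colours in `{1, 2, 3, 4}` that is neighbour sum distinguishing and
quasi-majority. -/
theorem result {V : Type} [Fintype V] [DecidableEq V] (G : SimpleGraph V) [DecidableRel G.Adj]
    (hG : G.Connected) (hn : Fintype.card V ≠ 2)
    (h5 : IsEmpty (G ≃g SimpleGraph.cycleGraph 5)) :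
    ∃ c : Sym2 V → ℕ, (∀ e ∈ G.edgeSet, 1 ≤ c e ∧ c e ≤ 4) ∧
      (∀ u w, G.Adj u w →
        ∑ z ∈ G.neighborFinset u, c s(u, z) ≠ ∑ z ∈ G.neighborFinset w, c s(w, z)) ∧
      ∀ u α, ((G.neighborFinset u).filter fun z => c s(u, z) = α).card ≤ (G.degree u + 1) / 2 :=
  Pool.Agent.MP_d1f1f3_co.H33.fin3 _ Pool.Agent.MP_d1f1f3_co.H33.all V G hG hn h5
    fun _ => Or.inr trivial

end Pool.Agent.Results.MP_d1f1f3_co.AllFour
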